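import Pool.Agent.XPR.All

/-!
# Imaginary quadratic fields of exact `p`-rank one (MP_13aecf_nt)

For every prime `p ≥ 5` such that `p²` does not divide `3^p - 3` or `p²` does not divide
`11^p - 11` there is an imaginary quadratic field whose class number is divisible by `p` and not by
`p²`; so the `p`-rank of its class group is `1`.

The class number divides the number of representations of `m` by three squares (ideals of
`ℤ[√-m]` act on the pure Hurwitz quaternions of norm `m`), the sum of `r₃(l^p - x²)` over the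
`x` divisible by `4` and not by `l` is `2 (l^p - l)` for `l = 3, 11` (a count of cyclically reduced
words in `l + 1` involutions), and `p` divides every class number in question.
-/

set_option autoImplicit false

open scoped NumberField

namespace Pool.Agent.Results.MP_13aecf_nt.ExactRankOne

theorem result : ∀ p : ℕ, p.Prime → 5 ≤ p → (¬ p ^ 2 ∣ 3 ^ p - 3 ∨ ¬ p ^ 2 ∣ 11 ^ p - 11) →
    ∃ (K : Type) (_ : Field K) (_ : NumberField K),
      Module.finrank ℚ K = 2 ∧ NumberField.discr K < 0 ∧
      p ∣ Nat.card (ClassGroup (𝓞 K)) ∧ ¬ p ^ 2 ∣ Nat.card (ClassGroup (𝓞 K)) ∧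
      Nat.card (ClassGroup (𝓞 K) ⧸
        (powMonoidHom p : ClassGroup (𝓞 K) →* ClassGroup (𝓞 K)).range) = p ^ 1 :=
  Pool.Agent.XPR.final Pool.Agent.XPR.all_CLS Pool.Agent.XPR.all_MOD Pool.Agent.XPR.all_PDV
    Pool.Agent.XPR.all_CNT Pool.Agent.XPR.all_SUM Pool.Agent.XPR.all_EXK Pool.Agent.XPR.all_GRP
    Pool.Agent.XPR.all_G3 Pool.Agent.XPR.all_G11

end Pool.Agent.Results.MP_13aecf_nt.ExactRankOne
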